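import Pool.Agent.Q122.IndexProofs

set_option autoImplicit false

namespace Pool.Agent.Results.MP_ee2194_co.ConstantFactor

open Q122

/-- For every real `β` with `0 < β < 1` and every `N` there is a finite bipartite graph `G` with at
least one edge, `sm(G) ≥ N` and `df(G) ≥ (1 + β) ⌈sm(G) / 2⌉`. -/
theorem result : ∀ β : ℝ, 0 < β → β < 1 → ∀ N : ℕ,
    ∃ (V : Type) (_ : Fintype V) (G : SimpleGraph V),
      G.Colorable 2 ∧ G ≠ ⊥ ∧ N ≤ sumIndex G ∧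
        (1 + β) * (⌈(sumIndex G : ℝ) / 2⌉ : ℝ) ≤ (diffIndex G : ℝ) := by
  intro β hβ0 hβ1 N
  obtain ⟨K, hK⟩ := exists_nat_ge (β / (1 - β) + N)
  have hpos : 0 < 1 - β := by linarith
  have hK1 : β / (1 - β) ≤ K := by
    have : (0 : ℝ) ≤ N := Nat.cast_nonneg N
    linarith
  have hK2 : N ≤ K := by
    have : 0 ≤ β / (1 - β) := by positivity
    have h : (N : ℝ) ≤ K := by linarith
    exact_mod_cast h
  rw [div_le_iff₀ hpos] at hK1
  obtain ⟨V, hV, G, h1, h2, h0, h3, h4⟩ := exists_bipartite (2 * K)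
  refine ⟨V, hV, G, h1, h2, by omega, ?_⟩
  have h5 : (⌈(sumIndex G : ℝ) / 2⌉ : ℝ) ≤ (K : ℝ) + 1 := by
    have : ⌈(sumIndex G : ℝ) / 2⌉ ≤ (K : ℤ) + 1 := by
      rw [Int.ceil_le]
      have : (sumIndex G : ℝ) ≤ 2 * K + 2 := by exact_mod_cast h3
      push_cast
      linarith
    exact_mod_cast this
  have h6 : (2 * (K : ℝ) + 1) ≤ diffIndex G := by exact_mod_cast h4
  calc (1 + β) * (⌈(sumIndex G : ℝ) / 2⌉ : ℝ) ≤ (1 + β) * ((K : ℝ) + 1) :=
        mul_le_mul_of_nonneg_left h5 (by linarith)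
    _ ≤ 2 * (K : ℝ) + 1 := by nlinarith
    _ ≤ diffIndex G := h6

end Pool.Agent.Results.MP_ee2194_co.ConstantFactor
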